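import Mathlib

/-!
# Quantitative Helly theorem for the diameter: common definitions

`JohnSys d ι`: unit vectors `u i` of the `d`-dimensional Euclidean space with nonnegative weights
`c i` of sum one such that `∑ c i • u i = 0` and `∑ c i * ⟪u i, w⟫ ^ 2 = ‖w‖ ^ 2 / d` for all `w`.
-/

set_option autoImplicit false

namespace Pool.Agent.Helper47.QH

open scoped BigOperators RealInnerProductSpace

/-- A system of unit vectors in John position. -/
structure JohnSys (d : ℕ) (ι : Type) [Fintype ι] where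
  u : ι → EuclideanSpace ℝ (Fin d)
  c : ι → ℝ
  c_nonneg : ∀ i, 0 ≤ c i
  c_sum : ∑ i, c i = 1
  u_norm : ∀ i, ‖u i‖ = 1
  centred : ∑ i, c i • u i = 0
  iso : ∀ w : EuclideanSpace ℝ (Fin d), ∑ i, c i * ⟪u i, w⟫ ^ 2 = ‖w‖ ^ 2 / d

end Pool.Agent.Helper47.QH
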