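import Mathlib
import Pool.Agent.Helper33.QH.Cara
import Pool.Agent.Helper14.QH.Cramer
import Pool.Agent.Helper50.QH.LogBound
import Pool.Agent.Helper67.QH.DetLe
import Pool.Agent.Helper88.QH.Extremal

set_option autoImplicit false

namespace Pool.Agent.Helper47.QH

open scoped BigOperators RealInnerProductSpace

/-- An operator with positive determinant is invertible. -/
theorem exists_inv {d : ℕ} (A : EuclideanSpace ℝ (Fin d) →L[ℝ] EuclideanSpace ℝ (Fin d))
    (hA : 0 < A.det) :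
    ∃ B : EuclideanSpace ℝ (Fin d) →L[ℝ] EuclideanSpace ℝ (Fin d),
      (∀ x, B (A x) = x) ∧ (∀ x, A (B x) = x) ∧ A.det * B.det = 1 := by
  have h1 : IsUnit (LinearMap.det (A : EuclideanSpace ℝ (Fin d) →ₗ[ℝ] EuclideanSpace ℝ (Fin d))) :=
    isUnit_iff_ne_zero.2 hA.ne'
  have h2 := (LinearMap.isUnit_iff_isUnit_det _).2 h1
  obtain ⟨B, hB1, hB2⟩ := isUnit_iff_exists.1 h2
  refine ⟨LinearMap.toContinuousLinearMap B, fun x => ?_, fun x => ?_, ?_⟩
  · exact LinearMap.congr_fun hB2 x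
  · exact LinearMap.congr_fun hB1 x
  · have h3 : LinearMap.det ((A : EuclideanSpace ℝ (Fin d) →ₗ[ℝ] EuclideanSpace ℝ (Fin d)) * B) = 1 := by
      rw [hB1, map_one]
    rw [map_mul] at h3
    exact h3

theorem prod_update {d : ℕ} {I : Type} (s : I → ℝ) (f : Fin d → I) (j : Fin d) (k : I) :
    (∏ l, s (Function.update f j k l)) * s (f j) = (∏ l, s (f l)) * s k := by
  classical
  rw [← Finset.mul_prod_erase Finset.univ _ (Finset.mem_univ j),
    ← Finset.mul_prod_erase Finset.univ (fun l => s (f l)) (Finset.mem_univ j)]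
  have h1 : ∏ l ∈ Finset.univ.erase j, s (Function.update f j k l) =
      ∏ l ∈ Finset.univ.erase j, s (f l) := by
    refine Finset.prod_congr rfl fun l hl => ?_
    rw [Function.update_of_ne (Finset.ne_of_mem_erase hl)]
  rw [h1, Function.update_self]
  ring

/-- The main estimate: exchanging one element of the family `f` does not change the optimal value
by more than a constant factor (relative to the old optimal pair). -/
theorem main_est {d : ℕ} {I : Type} [Fintype I]
    (a : I → EuclideanSpace ℝ (Fin d)) (b : I → ℝ) (f : Fin d → I)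
    (o : EuclideanSpace ℝ (Fin d))
    (A : EuclideanSpace ℝ (Fin d) →L[ℝ] EuclideanSpace ℝ (Fin d))
    (hA : 0 < A.det) (hf : ∀ i, ⟪a i, o⟫ + ‖A (a i)‖ ≤ b i) (hs : ∀ i, ⟪a i, o⟫ < b i)
    (c : I → ℝ) (hc : ∀ i, 0 ≤ c i)
    (hact : ∀ i, c i ≠ 0 → ‖A (a i)‖ = b i - ⟪a i, o⟫)
    (hcen : ∑ i, (c i / (b i - ⟪a i, o⟫)) • A (a i) =
          -∑ j, (b (f j) - ⟪a (f j), o⟫)⁻¹ • A (a (f j)))
    (hiso : ∀ w : EuclideanSpace ℝ (Fin d),
          ∑ i, c i * (⟪A (a i), w⟫ / (b i - ⟪a i, o⟫)) ^ 2 = ‖w‖ ^ 2)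
    (o' : EuclideanSpace ℝ (Fin d))
    (A' : EuclideanSpace ℝ (Fin d) →L[ℝ] EuclideanSpace ℝ (Fin d))
    (hA' : 0 < A'.det) (hf' : ∀ i, ⟪a i, o'⟫ + ‖A' (a i)‖ ≤ b i) (hs' : ∀ i, ⟪a i, o'⟫ < b i)
    (j : Fin d) (k : I) :
    A'.det * ∏ l, (b (Function.update f j k l) - ⟪a (Function.update f j k l), o'⟫) ≤
      (14 / 3) * (A.det * ∏ l, (b (Function.update f j k l) -
        ⟪a (Function.update f j k l), o⟫)) := by
  obtain ⟨s, hsdef⟩ : ∃ s : I → ℝ, ∀ i, s i = b i - ⟪a i, o⟫ := ⟨_, fun i => rfl⟩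
  obtain ⟨s', hs'def⟩ : ∃ s' : I → ℝ, ∀ i, s' i = b i - ⟪a i, o'⟫ := ⟨_, fun i => rfl⟩
  have hspos : ∀ i, 0 < s i := fun i => by rw [hsdef]; linarith [hs i]
  have hs'pos : ∀ i, 0 < s' i := fun i => by rw [hs'def]; linarith [hs' i]
  simp only [← hsdef] at hact hcen hiso
  simp only [← hsdef, ← hs'def]
  obtain ⟨B, hBA, hAB, hdet⟩ := exists_inv A hA
  obtain ⟨C, hCA, -, -⟩ := exists_inv A' hA'
  obtain ⟨u, hu⟩ : ∃ u : I → EuclideanSpace ℝ (Fin d), ∀ i, u i = (s i)⁻¹ • A (a i) :=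
    ⟨_, fun i => rfl⟩
  obtain ⟨x, hx⟩ : ∃ x : EuclideanSpace ℝ (Fin d), x = ContinuousLinearMap.adjoint B (o' - o) :=
    ⟨_, rfl⟩
  have hux : ∀ i, 1 - ⟪u i, x⟫ = s' i / s i := by
    intro i
    rw [hu, hx, real_inner_smul_left, ContinuousLinearMap.adjoint_inner_right, hBA,
      inner_sub_right, eq_div_iff (hspos i).ne', sub_mul, one_mul]
    have h1 : (s i)⁻¹ * (⟪a i, o'⟫ - ⟪a i, o⟫) * s i = ⟪a i, o'⟫ - ⟪a i, o⟫ := by
      have := (hspos i).ne'
      field_simp
    rw [h1, hsdef, hs'def]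
    ring
  have hu1 : ∀ i, ‖u i‖ ≤ 1 := by
    intro i
    rw [hu, norm_smul, norm_inv, Real.norm_of_nonneg (hspos i).le, inv_mul_le_iff₀ (hspos i),
      mul_one, hsdef]
    linarith [hf i]
  have hu2 : ∀ i, c i ≠ 0 → ‖u i‖ = 1 := by
    intro i hi
    rw [hu, norm_smul, norm_inv, Real.norm_of_nonneg (hspos i).le, hact i hi,
      inv_mul_cancel₀ (hspos i).ne']
  have hiso' : ∀ w : EuclideanSpace ℝ (Fin d), ∑ i, c i * ⟪u i, w⟫ ^ 2 = ‖w‖ ^ 2 := by
    intro w
    rw [← hiso w]
    refine Finset.sum_congr rfl fun i _ => ?_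
    rw [hu, real_inner_smul_left, div_eq_inv_mul]
  have hcen' : ∑ i, c i • u i = -∑ l, u (f l) := by
    have h1 : ∀ i, c i • u i = (c i / s i) • A (a i) := by
      intro i
      rw [hu, smul_smul, div_eq_mul_inv]
    rw [Finset.sum_congr rfl fun i _ => h1 i]
    simp only [hu]
    exact hcen
  have hx1 : ∀ i, ⟪u i, x⟫ < 1 := by
    intro i
    have h1 := hux i
    have h2 : 0 < s' i / s i := div_pos (hs'pos i) (hspos i)
    linarith
  have hlog := Pool.Agent.Helper50.QH.log_bound u c hc hu1 hiso' f hcen' x hx1 j k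
  obtain ⟨Q, hQ⟩ : ∃ Q, Q = A'.comp B := ⟨_, rfl⟩
  have hBpos : 0 < B.det := by
    by_contra h
    push Not at h
    nlinarith
  have hQdet : Q.det = A'.det * B.det := by
    rw [hQ]
    exact LinearMap.det_comp (A' : EuclideanSpace ℝ (Fin d) →ₗ[ℝ] EuclideanSpace ℝ (Fin d))
      (B : EuclideanSpace ℝ (Fin d) →ₗ[ℝ] EuclideanSpace ℝ (Fin d))
  have hQpos : 0 < Q.det := by rw [hQdet]; positivity
  have hQu : ∀ i, Q (u i) = (s i)⁻¹ • A' (a i) := by
    intro i
    rw [hQ, hu, ContinuousLinearMap.comp_apply, map_smul, map_smul, hBA]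
  have hdetle := Pool.Agent.Helper67.QH.det_le u c hc hu2 hiso' Q hQpos
  have h3 : ∑ i, c i * Real.log ‖Q (u i)‖ ≤ ∑ i, c i * Real.log (1 - ⟪u i, x⟫) := by
    refine Finset.sum_le_sum fun i _ => ?_
    by_cases hi : c i = 0
    · rw [hi, zero_mul, zero_mul]
    · refine mul_le_mul_of_nonneg_left ?_ (hc i)
      have h4 : a i ≠ 0 := by
        intro h0
        have h5 := hact i hi
        rw [h0, map_zero, norm_zero] at h5
        linarith [hspos i]
      have h6 : A' (a i) ≠ 0 := by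
        intro h0
        apply h4
        rw [← hCA (a i), h0, map_zero]
      have h7 : ‖Q (u i)‖ = ‖A' (a i)‖ / s i := by
        rw [hQu, norm_smul, norm_inv, Real.norm_of_nonneg (hspos i).le, div_eq_inv_mul]
      rw [h7, hux]
      refine Real.log_le_log (div_pos (norm_pos_iff.2 h6) (hspos i)) ?_
      refine (div_le_div_iff_of_pos_right (hspos i)).2 ?_
      rw [hs'def]
      linarith [hf' i]
  have h4 : ∑ l, Real.log (1 - ⟪u (Function.update f j k l), x⟫) =
      Real.log (∏ l, (s' (Function.update f j k l) / s (Function.update f j k l))) := by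
    rw [Real.log_prod]
    · exact Finset.sum_congr rfl fun l _ => by rw [hux]
    · intro l _
      exact (div_pos (hs'pos _) (hspos _)).ne'
  have hprodpos : 0 < ∏ l, (s' (Function.update f j k l) / s (Function.update f j k l)) :=
    Finset.prod_pos fun l _ => div_pos (hs'pos _) (hspos _)
  have h5 : Real.log (Q.det * ∏ l, (s' (Function.update f j k l) / s (Function.update f j k l)))
      ≤ Real.log (14 / 3) := by
    rw [Real.log_mul hQpos.ne' hprodpos.ne', ← h4]
    linarith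
  have h6 : Q.det * ∏ l, (s' (Function.update f j k l) / s (Function.update f j k l)) ≤ 14 / 3 :=
    (Real.log_le_log_iff (mul_pos hQpos hprodpos) (by norm_num)).1 h5
  rw [hQdet, Finset.prod_div_distrib] at h6
  have hP : 0 < ∏ l, s (Function.update f j k l) := Finset.prod_pos fun l _ => hspos _
  have h7 : A'.det * ∏ l, s' (Function.update f j k l) =
      (A'.det * B.det * ((∏ l, s' (Function.update f j k l)) /
        ∏ l, s (Function.update f j k l))) * (A.det * ∏ l, s (Function.update f j k l)) := by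
    have h8 : A'.det * B.det * ((∏ l, s' (Function.update f j k l)) /
        ∏ l, s (Function.update f j k l)) * (A.det * ∏ l, s (Function.update f j k l)) =
        A'.det * (A.det * B.det) * (((∏ l, s' (Function.update f j k l)) /
        ∏ l, s (Function.update f j k l)) * ∏ l, s (Function.update f j k l)) := by ring
    rw [h8, hdet, mul_one, div_mul_cancel₀ _ hP.ne']
  rw [h7]
  exact mul_le_mul_of_nonneg_right h6 (by positivity)

/-- a bounded polytope: the normals span. -/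
theorem exists_basis {d : ℕ} {I : Type} [Fintype I]
    (a : I → EuclideanSpace ℝ (Fin d)) (b : I → ℝ) (R : ℝ)
    (hbdd : ∀ x : EuclideanSpace ℝ (Fin d), (∀ i, ⟪a i, x⟫ ≤ b i) → ‖x‖ ≤ R)
    (x₀ : EuclideanSpace ℝ (Fin d)) (hint : ∀ i, ⟪a i, x₀⟫ < b i) :
    ∃ f : Fin d → I, (EuclideanSpace.basisFun (Fin d) ℝ).toBasis.det (fun j => a (f j)) ≠ 0 := by
  have hspan : Submodule.span ℝ (Set.range a) = ⊤ := by
    by_contra hne
    have h1 : (Submodule.span ℝ (Set.range a))ᗮ ≠ ⊥ := by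
      intro h0
      exact hne (Submodule.orthogonal_eq_bot_iff.1 h0)
    obtain ⟨w, hw, hw0⟩ := Submodule.exists_mem_ne_zero_of_ne_bot h1
    have h2 : ∀ i, ⟪a i, w⟫ = (0 : ℝ) := by
      intro i
      exact Submodule.inner_right_of_mem_orthogonal (K := Submodule.span ℝ (Set.range a))
        (Submodule.subset_span (Set.mem_range_self i)) hw
    have hwpos : 0 < ‖w‖ := norm_pos_iff.2 hw0
    have h3 := hbdd (x₀ + ((R + ‖x₀‖ + 1) / ‖w‖) • w) (fun i => by
      rw [inner_add_right, inner_smul_right, h2, mul_zero, add_zero]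
      exact (hint i).le)
    have hR : 0 ≤ R := (norm_nonneg x₀).trans (hbdd x₀ fun i => (hint i).le)
    have h4 : ‖((R + ‖x₀‖ + 1) / ‖w‖) • w‖ = R + ‖x₀‖ + 1 := by
      rw [norm_smul, Real.norm_of_nonneg (by positivity), div_mul_cancel₀ _ hwpos.ne']
    have h5 : ‖((R + ‖x₀‖ + 1) / ‖w‖) • w‖ ≤ ‖x₀ + ((R + ‖x₀‖ + 1) / ‖w‖) • w‖ + ‖x₀‖ := by
      have := norm_sub_le (x₀ + ((R + ‖x₀‖ + 1) / ‖w‖) • w) x₀
      simpa using this
    linarith
  obtain ⟨g, hg1, hg2, hg3⟩ := Submodule.exists_fun_fin_finrank_span_eq ℝ (Set.range a)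
  have hfr : Module.finrank ℝ (Submodule.span ℝ (Set.range a)) = d := by
    rw [hspan, finrank_top, finrank_euclideanSpace_fin]
  choose f hf using hg1
  refine ⟨fun j => f (Fin.cast hfr.symm j), ?_⟩
  have h1 : (fun j => a (f (Fin.cast hfr.symm j))) = fun j => g (Fin.cast hfr.symm j) := by
    funext j
    exact hf _
  rw [h1]
  have h2 : IsUnit ((EuclideanSpace.basisFun (Fin d) ℝ).toBasis.det
      fun j => g (Fin.cast hfr.symm j)) := by
    refine (Module.Basis.is_basis_iff_det _).1 ⟨?_, ?_⟩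
    · exact hg3.comp _ (Fin.cast_injective _)
    · have h3 : Set.range (fun j => g (Fin.cast hfr.symm j)) = Set.range g := by
        ext y
        constructor
        · rintro ⟨j, rfl⟩
          exact ⟨_, rfl⟩
        · rintro ⟨j, rfl⟩
          exact ⟨Fin.cast hfr j, by simp⟩
      rw [h3, hg2, hspan]
  exact h2.ne_zero

/-- QH-7 (polytopes). -/
theorem polytope {d : ℕ} (hd : 0 < d) {I : Type} [Fintype I]
    (a : I → EuclideanSpace ℝ (Fin d)) (b : I → ℝ) (D : ℝ)
    (hD : ∀ x y : EuclideanSpace ℝ (Fin d), (∀ i, ⟪a i, x⟫ ≤ b i) → (∀ i, ⟪a i, y⟫ ≤ b i) →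
      ‖x - y‖ ≤ D)
    (x₀ : EuclideanSpace ℝ (Fin d)) (hint : ∀ i, ⟪a i, x₀⟫ < b i) :
    ∃ s : Finset I, s.card ≤ 2 * d ∧
      ∀ x y : EuclideanSpace ℝ (Fin d), (∀ i ∈ s, ⟪a i, x⟫ ≤ b i) → (∀ i ∈ s, ⟪a i, y⟫ ≤ b i) →
        ‖x - y‖ ≤ 14 * (d : ℝ) * D := by
  classical
  have hbdd : ∀ x : EuclideanSpace ℝ (Fin d), (∀ i, ⟪a i, x⟫ ≤ b i) → ‖x‖ ≤ D + ‖x₀‖ := by
    intro x hx
    have h1 := hD x x₀ hx fun i => (hint i).le
    have h2 : ‖x‖ ≤ ‖x - x₀‖ + ‖x₀‖ := by
      have := norm_add_le (x - x₀) x₀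
      simpa using this
    linarith
  obtain ⟨f₀, hf₀⟩ := exists_basis a b _ hbdd x₀ hint
  choose o A hA hfe hs hmax c hc hact hcs hcen hiso using
    fun f : Fin d → I => Pool.Agent.Helper88.QH.extremal hd a b _ hbdd x₀ hint f
  obtain ⟨m, hm⟩ : ∃ m : (Fin d → I) → ℝ, ∀ f, m f =
    (A f).det * ∏ j, (b (f j) - ⟪a (f j), o f⟫) := ⟨_, fun f => rfl⟩
  have hmpos : ∀ f, 0 < m f := by
    intro f
    rw [hm]
    exact mul_pos (hA f) (Finset.prod_pos fun j _ => by linarith [hs f (f j)])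
  obtain ⟨ω, hω⟩ : ∃ ω : (Fin d → EuclideanSpace ℝ (Fin d)) → ℝ,
    ∀ v, ω v = (EuclideanSpace.basisFun (Fin d) ℝ).toBasis.det v := ⟨_, fun v => rfl⟩
  have hne : Nonempty (Fin d → I) := ⟨f₀⟩
  obtain ⟨f, hf⟩ := Finite.exists_max fun f : Fin d → I => |ω (fun j => a (f j))| / m f
  have hωf : 0 < |ω (fun j => a (f j))| := by
    have h1 := hf f₀
    have h2 : 0 < |ω (fun j => a (f₀ j))| / m f₀ := by
      refine div_pos (abs_pos.2 ?_) (hmpos _)
      rw [hω]
      exact hf₀
    have h3 : 0 < |ω (fun j => a (f j))| / m f := h2.trans_le h1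
    rcases (abs_nonneg (ω (fun j => a (f j)))).lt_or_eq with h4 | h4
    · exact h4
    · rw [← h4, zero_div] at h3
      exact absurd h3 (lt_irrefl _)
  obtain ⟨s, hsdef⟩ : ∃ s : I → ℝ, ∀ i, s i = b i - ⟪a i, o f⟫ := ⟨_, fun i => rfl⟩
  have hspos : ∀ i, 0 < s i := fun i => by rw [hsdef]; linarith [hs f i]
  -- the coordinates
  obtain ⟨β, hβ⟩ : ∃ β : I → Fin d → ℝ, ∀ k j, β k j =
    ω (Function.update (fun l => a (f l)) j (a k)) / ω (fun l => a (f l)) := ⟨_, fun k j => rfl⟩
  have hβ1 : ∀ k, a k = ∑ j, β k j • a (f j) := by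
    intro k
    have h1 := Pool.Agent.Helper14.QH.cramer (fun l => a (f l)) (by
      rw [← hω]
      exact abs_pos.1 hωf) (a k)
    simp only [← hω, ← hβ] at h1
    exact h1
  have hβ2 : ∀ k j, |β k j| * s (f j) ≤ 14 / 3 * s k := by
    intro k j
    have h1 := hf (Function.update f j k)
    have h2 : (fun l => a (Function.update f j k l)) =
        Function.update (fun l => a (f l)) j (a k) := by
      funext l
      by_cases hl : l = j
      · subst hl
        simp
      · simp [Function.update_of_ne hl]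
    have h3 := main_est a b f (o f) (A f) (hA f) (hfe f) (hs f) (c f) (hc f) (hact f) (hcen f)
      (hiso f) (o (Function.update f j k)) (A (Function.update f j k))
      (hA _) (hfe _) (hs _) j k
    rw [← hm] at h3
    simp only [← hsdef] at h3
    simp only [h2] at h1
    rw [div_le_div_iff₀ (hmpos _) (hmpos _)] at h1
    have h4 : m f = (A f).det * ∏ l, s (f l) := by
      rw [hm]
      simp only [hsdef]
    have h5 := prod_update s f j k
    have hP : 0 < ∏ l, s (f l) := Finset.prod_pos fun l _ => hspos _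
    have h6 : |β k j| = |ω (Function.update (fun l => a (f l)) j (a k))| /
        |ω (fun l => a (f l))| := by
      rw [hβ, abs_div]
    have h7 : |β k j| * m f ≤ m (Function.update f j k) := by
      rw [h6, div_mul_eq_mul_div, div_le_iff₀ hωf]
      linarith
    have h8 : |β k j| * m f * s (f j) ≤ 14 / 3 * s k * m f := by
      calc |β k j| * m f * s (f j) ≤ (14 / 3 * ((A f).det *
            ∏ l, s (Function.update f j k l))) * s (f j) :=
            mul_le_mul_of_nonneg_right (h7.trans h3) (hspos _).le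
        _ = 14 / 3 * (A f).det * ((∏ l, s (Function.update f j k l)) * s (f j)) := by ring
        _ = 14 / 3 * s k * m f := by rw [h5, h4]; ring
    have h9 : (|β k j| * s (f j)) * m f ≤ (14 / 3 * s k) * m f := by linarith
    exact le_of_mul_le_mul_right h9 (hmpos f)
  -- the second half
  obtain ⟨W, q, hW, hq, hqs, hqc⟩ := Pool.Agent.Helper33.QH.conic_cara
    (fun i => (s i)⁻¹ • a i) (c f) (hc f)
  obtain ⟨B, hBA, -, -⟩ := exists_inv (A f) (hA f)
  have hsum : ∑ i ∈ W, q i • ((s i)⁻¹ • a i) = -∑ j, (s (f j))⁻¹ • a (f j) := by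
    rw [hqs]
    have h1 := hcen f
    simp only [← hsdef] at h1
    have h2 := congrArg B h1
    simp only [map_sum, map_neg, map_smul, hBA] at h2
    rw [← h2]
    refine Finset.sum_congr rfl fun i _ => ?_
    rw [smul_smul, div_eq_mul_inv]
  refine ⟨Finset.univ.image f ∪ W, ?_, ?_⟩
  · refine (Finset.card_union_le _ _).trans ?_
    have h1 : (Finset.univ.image f).card ≤ d := by
      refine Finset.card_image_le.trans ?_
      simp
    omega
  have key : ∀ y : EuclideanSpace ℝ (Fin d),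
      (∀ i ∈ Finset.univ.image f ∪ W, ⟪a i, y⟫ ≤ b i) → ‖y - o f‖ ≤ 7 * (d : ℝ) * D := by
    intro y hy
    obtain ⟨z, hz⟩ : ∃ z, z = y - o f := ⟨_, rfl⟩
    rw [← hz]
    have hd' : (0 : ℝ) < d := by exact_mod_cast hd
    have hyi : ∀ i ∈ Finset.univ.image f ∪ W, ⟪a i, z⟫ / s i ≤ 1 := by
      intro i hi
      rw [div_le_one (hspos i), hz, inner_sub_right, hsdef]
      linarith [hy i hi]
    obtain ⟨τ, hτ⟩ : ∃ τ : Fin d → ℝ, ∀ j, τ j = ⟪a (f j), z⟫ / s (f j) := ⟨_, fun j => rfl⟩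
    have hτ1 : ∀ j, τ j ≤ 1 := by
      intro j
      rw [hτ]
      exact hyi _ (Finset.mem_union_left _ (Finset.mem_image_of_mem f (Finset.mem_univ j)))
    have hτs : -∑ j, τ j ≤ d := by
      have h1 : -∑ j, τ j = ⟪-∑ j, (s (f j))⁻¹ • a (f j), z⟫ := by
        rw [inner_neg_left, sum_inner]
        congr 1
        refine Finset.sum_congr rfl fun j _ => ?_
        rw [hτ, real_inner_smul_left, div_eq_inv_mul]
      rw [h1, ← hsum, sum_inner]
      have h2 : ∑ i ∈ W, ⟪q i • ((s i)⁻¹ • a i), z⟫ ≤ ∑ i ∈ W, q i := by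
        refine Finset.sum_le_sum fun i hi => ?_
        rw [real_inner_smul_left, real_inner_smul_left, ← div_eq_inv_mul]
        have h3 := hyi i (Finset.mem_union_right _ hi)
        nlinarith [hq i]
      have h4 := hcs f
      linarith
    have hτa : ∑ j, |τ j| ≤ 3 * d := by
      have h1 : ∀ j, |τ j| ≤ 2 - τ j := by
        intro j
        rw [abs_le]
        constructor <;> linarith [hτ1 j]
      have h2 : ∑ j, |τ j| ≤ ∑ j : Fin d, (2 - τ j) := Finset.sum_le_sum fun j _ => h1 j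
      rw [Finset.sum_sub_distrib, Finset.sum_const, Finset.card_univ, Fintype.card_fin,
        nsmul_eq_mul] at h2
      linarith
    have hall : ∀ k, |⟪a k, z⟫| ≤ 14 * d * s k := by
      intro k
      have h1 : ⟪a k, z⟫ = ∑ j, β k j * s (f j) * τ j := by
        conv_lhs => rw [hβ1 k]
        rw [sum_inner]
        refine Finset.sum_congr rfl fun j _ => ?_
        rw [real_inner_smul_left, hτ]
        have := (hspos (f j)).ne'
        field_simp
      rw [h1]
      refine (Finset.abs_sum_le_sum_abs _ _).trans ?_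
      have h2 : ∀ j ∈ Finset.univ, |β k j * s (f j) * τ j| ≤ 14 / 3 * s k * |τ j| := by
        intro j _
        rw [abs_mul, abs_mul, abs_of_pos (hspos (f j))]
        exact mul_le_mul_of_nonneg_right (hβ2 k j) (abs_nonneg _)
      refine (Finset.sum_le_sum h2).trans ?_
      rw [← Finset.mul_sum]
      have h3 : 0 ≤ 14 / 3 * s k := by have := hspos k; positivity
      nlinarith
    have hD2 := hD (o f + (14 * (d : ℝ))⁻¹ • z) (o f - (14 * (d : ℝ))⁻¹ • z) (fun i => by
        rw [inner_add_right, inner_smul_right]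
        have h1 := (abs_le.1 (hall i)).2
        have h2 : (14 * (d : ℝ))⁻¹ * ⟪a i, z⟫ ≤ s i := by
          rw [inv_mul_le_iff₀ (by positivity)]
          exact h1
        rw [hsdef] at h2
        linarith) (fun i => by
        rw [inner_sub_right, inner_smul_right]
        have h1 := (abs_le.1 (hall i)).1
        have h2 : (14 * (d : ℝ))⁻¹ * (-⟪a i, z⟫) ≤ s i := by
          rw [inv_mul_le_iff₀ (by positivity)]
          linarith
        rw [hsdef] at h2
        linarith)
    have h1 : o f + (14 * (d : ℝ))⁻¹ • z - (o f - (14 * (d : ℝ))⁻¹ • z) = (7 * (d : ℝ))⁻¹ • z := by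
      have h2 : (7 * (d : ℝ))⁻¹ = (14 * (d : ℝ))⁻¹ + (14 * (d : ℝ))⁻¹ := by
        field_simp
        norm_num
      rw [h2, add_smul]
      abel
    rw [h1, norm_smul, norm_inv, Real.norm_of_nonneg (by positivity),
      inv_mul_le_iff₀ (by positivity)] at hD2
    exact hD2
  intro x y hx hy
  have h1 := key x hx
  have h2 := key y hy
  have h3 : x - y = (x - o f) - (y - o f) := by abel
  rw [h3]
  refine (norm_sub_le _ _).trans ?_
  linarith

end Pool.Agent.Helper47.QH
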